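import Pool.Agent.H.MP_4bdd60_an.Defs
import Pool.Agent.H.MP_4bdd60_an.I1

/-!
# MP_4bdd60_an, unions: primitives of a mixed form near a point

`IsPr K L f k1 k2 G w`: at `w`, `G` has the derivative `k1` if `w ∉ K`, and `G ∘ f⁻¹` has the derivative `k2` at `f w` if `w ∉ L`.

PROOF of `loc_exists`. `z ∉ K`: on a ball `B` round `z` in `Kᶜ` the holomorphic `k1` has a primitive `G`
(`DifferentiableOn.isExactOn_ball` or similar in Mathlib); for `w ∈ B` with `w ∉ L`: `f` is holomorphic near `w`, so is `f.symm` near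
`f w` with derivative `1 / f'(w)` (`symm_hol` in I1.lean), and `k1 w = k2 (f w) * f'(w)`. `z ∉ L`: `G = Q ∘ f`, `Q` a primitive of `k2` on a ball round
`f z` in the open set `f '' Lᶜ`; for `w` near `z` with `w ∉ K` the chain rule.
PROOF of `loc_unique`. `D = G - H`: if `z ∉ K` then `D` has derivative `0` on a ball round `z`, so it is constant there; if `z ∉ L` the same for
`D ∘ f.symm` on a ball round `f z`.
-/

set_option autoImplicit false

open Set Filter Topology Metric MeasureTheory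
open scoped ENNReal Real

namespace Pool.Agent.H.MP_4bdd60_an.UN

variable {K L : Set ℂ} {f : ℂ ≃ₜ ℂ} {k1 k2 : ℂ → ℂ}

/-- `G` is a primitive of the form at `w`. -/
def IsPr (K L : Set ℂ) (f : ℂ ≃ₜ ℂ) (k1 k2 : ℂ → ℂ) (G : ℂ → ℂ) (w : ℂ) : Prop :=
  (w ∉ K → HasDerivAt G (k1 w) w) ∧ (w ∉ L → HasDerivAt (fun v => G (f.symm v)) (k2 (f w)) (f w))

theorem IsPr.add_const {G : ℂ → ℂ} {w : ℂ} (h : IsPr K L f k1 k2 G w) (c : ℂ) :
    IsPr K L f k1 k2 (fun v => G v + c) w :=
  ⟨fun hw => (h.1 hw).add_const c, fun hw => (h.2 hw).add_const c⟩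

/-- A primitive of the form is continuous. -/
theorem IsPr.continuousAt {G : ℂ → ℂ} {w : ℂ} (h : IsPr K L f k1 k2 G w) (hw : w ∉ K ∩ L) :
    ContinuousAt G w := by
  by_cases hK : w ∈ K
  · have hL : w ∉ L := fun hL => hw ⟨hK, hL⟩
    have h1 : ContinuousAt (fun v => G (f.symm v)) (f w) := (h.2 hL).continuousAt
    have h2 : ContinuousAt (fun v => G (f.symm (f v))) w :=
      ContinuousAt.comp (f := fun v => f v) (g := fun v => G (f.symm v)) h1 f.continuous.continuousAt
    simpa using h2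
  · exact (h.1 hK).continuousAt

/-- The property depends only on the germ. -/
theorem IsPr.congr {G H : ℂ → ℂ} {w : ℂ} (h : IsPr K L f k1 k2 G w) (he : H =ᶠ[𝓝 w] G) :
    IsPr K L f k1 k2 H w := by
  refine ⟨fun hw => (h.1 hw).congr_of_eventuallyEq he, fun hw => (h.2 hw).congr_of_eventuallyEq ?_⟩
  have h2 : Tendsto f.symm (𝓝 (f w)) (𝓝 w) := by
    have := f.symm.continuous.continuousAt (x := f w)
    simpa [ContinuousAt] using this
  exact h2.eventually he

private theorem Loc_tend (f : ℂ ≃ₜ ℂ) (w : ℂ) : Tendsto f.symm (𝓝 (f w)) (𝓝 w) := by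
  have := f.symm.continuous.continuousAt (x := f w)
  simpa [ContinuousAt] using this

private theorem Loc_const {D : ℂ → ℂ} {z : ℂ} (h : ∀ᶠ w in 𝓝 z, HasDerivAt D 0 w) :
    ∀ᶠ w in 𝓝 z, D w = D z := by
  obtain ⟨r, hr, hball⟩ := Metric.eventually_nhds_iff_ball.1 h
  have hd : DifferentiableOn ℂ D (ball z r) := fun w hw =>
    (hball w hw).differentiableAt.differentiableWithinAt
  filter_upwards [Metric.ball_mem_nhds z hr] with w hw
  exact Metric.isOpen_ball.is_const_of_deriv_eq_zero (convex_ball z r).isPreconnected hd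
    (fun v hv => (hball v hv).deriv) hw (mem_ball_self hr)

theorem loc_exists (hK : IsClosed K) (hL : IsClosed L) (hF : Form K L f k1 k2)
    (hf : DifferentiableOn ℂ f (K ∪ L)ᶜ) {z : ℂ} (hz : z ∉ K ∩ L) :
    ∃ G : ℂ → ℂ, ∀ᶠ w in 𝓝 z, IsPr K L f k1 k2 G w := by
  have hop : IsOpen (K ∪ L)ᶜ := (hK.union hL).isOpen_compl
  have hdf : ∀ w, w ∉ K → w ∉ L → HasDerivAt f (deriv f w) w := by
    intro w h1 h2
    have h3 : w ∈ (K ∪ L)ᶜ := fun h => h.elim h1 h2
    exact (hf.differentiableAt (hop.mem_nhds h3)).hasDerivAt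
  by_cases hzK : z ∈ K
  · have hzL : z ∉ L := fun h => hz ⟨hzK, h⟩
    have hopen : IsOpen (f '' Lᶜ) := f.isOpenMap _ hL.isOpen_compl
    have hm : f z ∈ f '' Lᶜ := ⟨z, hzL, rfl⟩
    obtain ⟨r, hr, hball⟩ := Metric.isOpen_iff.1 hopen (f z) hm
    obtain ⟨Q, hQ⟩ := (hF.hol2.mono hball).isExactOn_ball
    refine ⟨fun v => Q (f v), ?_⟩
    have h1 : ∀ᶠ w in 𝓝 z, f w ∈ ball (f z) r :=
      f.continuous.continuousAt.eventually (Metric.ball_mem_nhds (f z) hr)
    filter_upwards [h1] with w hw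
    have hwL : w ∉ L := by
      obtain ⟨w', hw', he⟩ := hball hw
      rw [← f.injective he]
      exact hw'
    refine ⟨fun hwK => ?_, fun _ => ?_⟩
    · have h2 := (hQ (f w) hw).comp w (hdf w hwK hwL)
      rw [hF.rel w hwK hwL]
      exact h2
    · have h2 : (fun v => Q (f (f.symm v))) = Q := by
        funext v
        rw [f.apply_symm_apply]
      rw [h2]
      exact hQ (f w) hw
  · obtain ⟨r, hr, hball⟩ := Metric.isOpen_iff.1 hK.isOpen_compl z hzK
    obtain ⟨G, hG⟩ := (hF.hol1.mono hball).isExactOn_ball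
    refine ⟨G, ?_⟩
    filter_upwards [Metric.ball_mem_nhds z hr] with w hw
    have hwK : w ∉ K := hball hw
    refine ⟨fun _ => hG w hw, fun hwL => ?_⟩
    have hd0 : deriv f w ≠ 0 := (symm_hol f hop hf).1 w (fun h => h.elim hwK hwL)
    have h1 : HasDerivAt f (deriv f w) (f.symm (f w)) := by
      rw [f.symm_apply_apply]
      exact hdf w hwK hwL
    have h2 : HasDerivAt f.symm (deriv f w)⁻¹ (f w) :=
      HasDerivAt.of_local_left_inverse f.symm.continuous.continuousAt h1 hd0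
        (Eventually.of_forall fun v => f.apply_symm_apply v)
    have h3 : HasDerivAt G (k1 w) (f.symm (f w)) := by
      rw [f.symm_apply_apply]
      exact hG w hw
    have h4 := h3.comp (f w) h2
    rw [hF.rel w hwK hwL, mul_assoc, mul_inv_cancel₀ hd0, mul_one] at h4
    exact h4

theorem loc_unique (hK : IsClosed K) (hL : IsClosed L) {z : ℂ} (hz : z ∉ K ∩ L) {G H : ℂ → ℂ}
    (hG : ∀ᶠ w in 𝓝 z, IsPr K L f k1 k2 G w) (hH : ∀ᶠ w in 𝓝 z, IsPr K L f k1 k2 H w) :
    ∃ c : ℂ, ∀ᶠ w in 𝓝 z, G w = H w + c := by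
  by_cases hzK : z ∈ K
  · have hzL : z ∉ L := fun h => hz ⟨hzK, h⟩
    have h0 : ∀ᶠ w in 𝓝 z, w ∉ L := hL.isOpen_compl.mem_nhds hzL
    have h1 : ∀ᶠ v in 𝓝 (f z), HasDerivAt (fun v => G (f.symm v) - H (f.symm v)) 0 v := by
      filter_upwards [(Loc_tend f z).eventually (h0.and (hG.and hH))] with v hv
      obtain ⟨h2, h3, h4⟩ := hv
      have h5 := (h3.2 h2).sub (h4.2 h2)
      rw [sub_self, f.apply_symm_apply] at h5
      exact h5
    have h2 := Loc_const h1
    refine ⟨G z - H z, ?_⟩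
    have h3 : ∀ᶠ w in 𝓝 z, G (f.symm (f w)) - H (f.symm (f w)) =
        G (f.symm (f z)) - H (f.symm (f z)) := f.continuous.continuousAt.eventually h2
    filter_upwards [h3] with w hw
    rw [f.symm_apply_apply, f.symm_apply_apply] at hw
    rw [← hw]
    ring
  · have h0 : ∀ᶠ w in 𝓝 z, w ∉ K := hK.isOpen_compl.mem_nhds hzK
    have h1 : ∀ᶠ w in 𝓝 z, HasDerivAt (fun v => G v - H v) 0 w := by
      filter_upwards [h0, hG, hH] with w h2 h3 h4
      have h5 := (h3.1 h2).sub (h4.1 h2)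
      rw [sub_self] at h5
      exact h5
    refine ⟨G z - H z, ?_⟩
    filter_upwards [Loc_const h1] with w hw
    rw [← hw]
    ring

end Pool.Agent.H.MP_4bdd60_an.UN
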