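import Mathlib

/-!
# MP_4bdd60_an, unions: the universal covering of a punctured disc

PROOF. `Ψ ζ = p + R * u (exp ζ)`, `u x = (√(1 + ‖x‖²))⁻¹ • x` (`OpenPartialHomeomorph.univUnitBall`): `exp` is a continuous open map
onto `{0}ᶜ`, and `u` is a homeomorphism of `ℂ` onto the unit ball with `u 0 = 0`. For real `s`, `θ`: `Ψ (s + θ * I) = circleMap p (ρ s) θ`
with `ρ s = R e^s / √(1 + e^(2 s))`, and every `r ∈ (0, R)` is a value `ρ s` (`e^s = r / √(R² - r²)`).
-/

set_option autoImplicit false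

open Set Filter Topology Metric
open scoped Real

namespace Pool.Agent.H.MP_4bdd60_an.UN

private theorem Psi_u : ∃ u : ℂ → ℂ, IsOpenEmbedding u ∧ range u = ball 0 1 ∧ u 0 = 0 ∧
    ∀ x, u x = (((√(1 + ‖x‖ ^ 2))⁻¹ : ℝ) : ℂ) * x := by
  refine ⟨OpenPartialHomeomorph.univUnitBall, OpenPartialHomeomorph.univUnitBall.isOpenEmbedding rfl, ?_,
    OpenPartialHomeomorph.univUnitBall_apply_zero, ?_⟩
  · rw [← image_univ]
    exact OpenPartialHomeomorph.univUnitBall.image_source_eq_target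
  · intro x
    rw [OpenPartialHomeomorph.univUnitBall_apply, Complex.real_smul]

/-- The map onto the punctured disc. -/
theorem exists_psi {p : ℂ} {R : ℝ} (hR : 0 < R) :
    ∃ Ψ : ℂ → ℂ, Continuous Ψ ∧ IsOpenMap Ψ ∧ range Ψ = ball p R \ {p} ∧
      (∀ ζ ζ' : ℂ, Ψ ζ = Ψ ζ' → ∃ n : ℤ, ζ = ζ' + n * (2 * π * Complex.I)) ∧
      (∀ ζ : ℂ, Ψ (ζ + 2 * π * Complex.I) = Ψ ζ) ∧
      (∀ r : ℝ, 0 < r → r < R → ∃ s : ℝ, ∀ θ : ℝ, Ψ (s + θ * Complex.I) = circleMap p r θ) := by
  obtain ⟨u, hu, hr, hu0, hf⟩ := Psi_u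
  have hRc : (R : ℂ) ≠ 0 := Complex.ofReal_ne_zero.2 hR.ne'
  have hnR : ‖(R : ℂ)‖ = R := by rw [Complex.norm_real, Real.norm_eq_abs, abs_of_pos hR]
  refine ⟨fun ζ => p + (R : ℂ) * u (Complex.exp ζ), ?_, ?_, ?_, ?_, ?_, ?_⟩
  · exact continuous_const.add (continuous_const.mul (hu.continuous.comp Complex.continuous_exp))
  · exact (Homeomorph.addLeft p).isOpenMap.comp ((Homeomorph.mulLeft₀ (R : ℂ) hRc).isOpenMap.comp
      (hu.isOpenMap.comp Complex.isOpenMap_exp))
  · ext z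
    constructor
    · rintro ⟨ζ, rfl⟩
      have h1 : u (Complex.exp ζ) ∈ ball (0 : ℂ) 1 := hr ▸ mem_range_self _
      have h2 : u (Complex.exp ζ) ≠ 0 := fun e => Complex.exp_ne_zero ζ (hu.injective (e.trans hu0.symm))
      refine ⟨?_, ?_⟩
      · rw [mem_ball, dist_eq_norm, add_sub_cancel_left, norm_mul, hnR]
        have h3 : ‖u (Complex.exp ζ)‖ < 1 := mem_ball_zero_iff.1 h1
        nlinarith
      · intro e
        rw [mem_singleton_iff] at e
        have : (R : ℂ) * u (Complex.exp ζ) = 0 := by simpa using e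
        rcases mul_eq_zero.1 this with h | h
        · exact hRc h
        · exact h2 h
    · rintro ⟨hz, hzp⟩
      have h1 : (z - p) / (R : ℂ) ∈ ball (0 : ℂ) 1 := by
        rw [mem_ball_zero_iff, norm_div, hnR, div_lt_one hR, ← dist_eq_norm]
        exact hz
      rw [← hr] at h1
      obtain ⟨x, hx⟩ := h1
      have hx0 : x ≠ 0 := by
        rintro rfl
        rw [hu0] at hx
        have : z - p = 0 := by
          rcases div_eq_zero_iff.1 hx.symm with h | h
          · exact h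
          · exact absurd h hRc
        exact hzp (sub_eq_zero.1 this)
      refine ⟨Complex.log x, ?_⟩
      show p + (R : ℂ) * u (Complex.exp (Complex.log x)) = z
      rw [Complex.exp_log hx0, hx, mul_div_cancel₀ _ hRc, add_sub_cancel]
  · intro ζ ζ' h
    have h1 : (R : ℂ) * u (Complex.exp ζ) = (R : ℂ) * u (Complex.exp ζ') := add_left_cancel h
    have h2 := hu.injective (mul_left_cancel₀ hRc h1)
    exact Complex.exp_eq_exp_iff_exists_int.1 h2
  · intro ζ
    show p + (R : ℂ) * u (Complex.exp (ζ + 2 * π * Complex.I)) = p + (R : ℂ) * u (Complex.exp ζ)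
    rw [Complex.exp_periodic ζ]
  · intro r hr0 hrR
    have hd : 0 < R ^ 2 - r ^ 2 := by nlinarith
    have hs : 0 < √(R ^ 2 - r ^ 2) := Real.sqrt_pos.2 hd
    set t : ℝ := r / √(R ^ 2 - r ^ 2) with ht
    have ht0 : 0 < t := div_pos hr0 hs
    refine ⟨Real.log t, fun θ => ?_⟩
    have he : Complex.exp ((Real.log t : ℂ) + θ * Complex.I) = (t : ℂ) * Complex.exp (θ * Complex.I) := by
      rw [Complex.exp_add, ← Complex.ofReal_exp, Real.exp_log ht0]
    have hn : ‖(t : ℂ) * Complex.exp (θ * Complex.I)‖ = t := by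
      rw [norm_mul, Complex.norm_exp_ofReal_mul_I, mul_one, Complex.norm_real, Real.norm_eq_abs,
        abs_of_pos ht0]
    have hq : 1 + t ^ 2 = (R / √(R ^ 2 - r ^ 2)) ^ 2 := by
      rw [ht, div_pow, div_pow, Real.sq_sqrt hd.le]
      field_simp
      ring
    have hq2 : √(1 + t ^ 2) = R / √(R ^ 2 - r ^ 2) := by
      rw [hq, Real.sqrt_sq (div_pos hR hs).le]
    have hfin : R * (√(1 + t ^ 2))⁻¹ * t = r := by
      rw [hq2, ht]
      field_simp
    show p + (R : ℂ) * u (Complex.exp ((Real.log t : ℂ) + θ * Complex.I)) = circleMap p r θ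
    rw [he, hf, hn, circleMap, ← hfin]
    push_cast
    ring

end Pool.Agent.H.MP_4bdd60_an.UN
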