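import Mathlib

/-!
# MP_4bdd60_an, unions: behaviour at infinity

PROOF of `asy`. `H z = F z - z` has `‖H'‖ ≤ |C| / ‖z‖²` for `‖z‖ > R`. Put `R' = R + 1`. For `‖z‖ > R'` compare `z` with
`z' = R' z / ‖z‖` along the segment (mean value inequality with the bound `|C| / R'²` is not enough; use the parametrisation
`t ↦ t z / ‖z‖`, `t ∈ [R', ‖z‖]`, and the primitive `- |C| / t`: `image_norm_le_of_norm_deriv_right_le_deriv_boundary`), so
`‖H z - H z'‖ ≤ |C| / R'`; and `H` is bounded on the compact sphere of radius `R'`.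
-/

set_option autoImplicit false

open Set Filter Topology Metric

namespace Pool.Agent.H.MP_4bdd60_an.UN

theorem asy {F k1 : ℂ → ℂ} {C R : ℝ} (hR : 0 < R) (hF : ∀ z, R < ‖z‖ → HasDerivAt F (k1 z) z)
    (hk : ∀ z, R < ‖z‖ → ‖k1 z - 1‖ ≤ C / ‖z‖ ^ 2) : ∃ C' R' : ℝ, ∀ z, R' < ‖z‖ → ‖F z - z‖ ≤ C' := by
  obtain ⟨R', hR'⟩ : ∃ R', R' = R + 1 := ⟨_, rfl⟩
  have hR'0 : 0 < R' := by linarith
  have hcont : ContinuousOn (fun z => F z - z) (sphere (0 : ℂ) R') := by
    intro z hz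
    have hz' : R < ‖z‖ := by
      rw [mem_sphere_zero_iff_norm] at hz
      linarith
    exact ((hF z hz').continuousAt.sub continuousAt_id).continuousWithinAt
  obtain ⟨M, hM⟩ := (isCompact_sphere (0 : ℂ) R').exists_bound_of_continuousOn hcont
  have hnR : ‖((R' : ℝ) : ℂ)‖ = R' := by
    rw [Complex.norm_real, Real.norm_of_nonneg hR'0.le]
  have hC : 0 ≤ C := by
    have h1 := hk ((R' : ℝ) : ℂ) (by rw [hnR]; linarith)
    rw [hnR] at h1
    have h2 := (norm_nonneg _).trans h1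
    by_contra hcon
    have h3 : C / R' ^ 2 < 0 := div_neg_of_neg_of_pos (not_le.1 hcon) (pow_pos hR'0 2)
    linarith
  refine ⟨M + C / R', R', ?_⟩
  intro z hz
  have hz0 : 0 < ‖z‖ := by linarith
  obtain ⟨u, hu⟩ : ∃ u : ℂ, u = z / ((‖z‖ : ℝ) : ℂ) := ⟨_, rfl⟩
  have hun : ‖u‖ = 1 := by
    rw [hu, norm_div, Complex.norm_real, norm_norm, div_self hz0.ne']
  have hnt : ∀ t : ℝ, 0 ≤ t → ‖(t : ℂ) * u‖ = t := by
    intro t ht
    rw [norm_mul, hun, mul_one, Complex.norm_real, Real.norm_of_nonneg ht]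
  have hd : ∀ t : ℝ, R' ≤ t → HasDerivAt (fun t : ℝ => F ((t : ℂ) * u) - (t : ℂ) * u)
      ((k1 ((t : ℂ) * u) - 1) * u) t := by
    intro t ht
    have h0 : HasDerivAt (fun t : ℝ => (t : ℂ)) 1 t := by
      simpa using (hasDerivAt_id t).ofReal_comp
    have h1 : HasDerivAt (fun t : ℝ => (t : ℂ) * u) u t := by
      simpa using h0.mul_const u
    have h2 := HasDerivAt.comp t (hF ((t : ℂ) * u) (by rw [hnt t (by linarith)]; linarith)) h1
    have h3 := h2.sub h1
    have h4 : k1 ((t : ℂ) * u) * u - u = (k1 ((t : ℂ) * u) - 1) * u := by ring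
    rw [h4] at h3
    exact h3
  have hB : ∀ t : ℝ, R' ≤ t → HasDerivAt (fun t : ℝ => (M + C / R') - C * t⁻¹)
      (-(C * -(t ^ 2)⁻¹)) t := by
    intro t ht
    have ht0 : t ≠ 0 := by
      have : 0 < t := by linarith
      exact this.ne'
    exact ((hasDerivAt_inv ht0).const_mul C).const_sub (M + C / R')
  have hmain := image_norm_le_of_norm_deriv_right_le_deriv_boundary'
    (f := fun t : ℝ => F ((t : ℂ) * u) - (t : ℂ) * u) (a := R') (b := ‖z‖)
    (f' := fun t : ℝ => (k1 ((t : ℂ) * u) - 1) * u)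
    (fun t ht => (hd t ht.1).continuousAt.continuousWithinAt)
    (fun t ht => (hd t ht.1).hasDerivWithinAt)
    (B := fun t : ℝ => (M + C / R') - C * t⁻¹) (B' := fun t : ℝ => -(C * -(t ^ 2)⁻¹))
    (by
      have h1 := hM ((R' : ℂ) * u) (by rw [mem_sphere_zero_iff_norm]; exact hnt R' hR'0.le)
      have h2 : (M + C / R') - C * R'⁻¹ = M := by
        rw [div_eq_mul_inv]
        ring
      show ‖F ((R' : ℂ) * u) - (R' : ℂ) * u‖ ≤ (M + C / R') - C * R'⁻¹
      rw [h2]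
      exact h1)
    (fun t ht => (hB t ht.1).continuousAt.continuousWithinAt)
    (fun t ht => (hB t ht.1).hasDerivWithinAt)
    (by
      intro t ht
      have ht0 : 0 < t := lt_of_lt_of_le hR'0 ht.1
      show ‖(k1 ((t : ℂ) * u) - 1) * u‖ ≤ -(C * -(t ^ 2)⁻¹)
      rw [norm_mul, hun, mul_one]
      have h1 := hk ((t : ℂ) * u) (by rw [hnt t ht0.le]; linarith [ht.1])
      rw [hnt t ht0.le] at h1
      refine h1.trans (le_of_eq ?_)
      rw [div_eq_mul_inv]
      ring)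
  have h1 := hmain (x := ‖z‖) ⟨hz.le, le_refl _⟩
  have h2 : ((‖z‖ : ℝ) : ℂ) * u = z := by
    rw [hu]
    have h3 : ((‖z‖ : ℝ) : ℂ) ≠ 0 := by exact_mod_cast hz0.ne'
    field_simp
  simp only [h2] at h1
  have h3 : 0 ≤ C * (‖z‖)⁻¹ := by positivity
  linarith

end Pool.Agent.H.MP_4bdd60_an.UN
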