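import Mathlib

/-!
# MP_4bdd60_an, unions: arcs of the circle

PROOF of `arcs`. `m z = ((z - α) * conj (β - α)).im`; `K = {z on the circle | 0 ≤ m z}`, `L = {z on the circle | m z ≤ 0}`. If `m z = 0` then
`z = α + t (β - α)`, `t` real, and `‖z‖ = ‖α‖ = ‖β‖ = 1` gives `t = 0` or `t = 1`. Both sides are proper: the points
`± i (β - α) / ‖β - α‖` are on the circle and on different sides.
-/

set_option autoImplicit false

open Set Filter Topology Metric

namespace Pool.Agent.H.MP_4bdd60_an.UN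

private theorem Arcs_sq (z : Circle) : (z : ℂ).re ^ 2 + (z : ℂ).im ^ 2 = 1 := by
  have h := Circle.norm_coe z
  have h2 := Complex.sq_norm (z : ℂ)
  rw [h, Complex.normSq_apply] at h2
  nlinarith

private theorem Arcs_mk (s t : ℝ) (h : s ^ 2 + t ^ 2 = 1) :
    ∃ z : Circle, (z : ℂ).re = s ∧ (z : ℂ).im = t := by
  have h1 : ‖(⟨s, t⟩ : ℂ)‖ = 1 := by
    rw [Complex.norm_eq_sqrt_sq_add_sq]
    show Real.sqrt (s ^ 2 + t ^ 2) = 1
    rw [h, Real.sqrt_one]
  exact ⟨⟨⟨s, t⟩, mem_sphere_zero_iff_norm.2 h1⟩, rfl, rfl⟩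

private theorem Arcs_line {a1 a2 d1 d2 z1 z2 : ℝ} (ha : a1 ^ 2 + a2 ^ 2 = 1)
    (hb : (a1 + d1) ^ 2 + (a2 + d2) ^ 2 = 1) (hz : z1 ^ 2 + z2 ^ 2 = 1)
    (hD : 0 < d1 ^ 2 + d2 ^ 2) (h : (z2 - a2) * d1 - (z1 - a1) * d2 = 0) :
    (z1 = a1 ∧ z2 = a2) ∨ (z1 = a1 + d1 ∧ z2 = a2 + d2) := by
  obtain ⟨t, ht⟩ : ∃ t, t = ((z1 - a1) * d1 + (z2 - a2) * d2) / (d1 ^ 2 + d2 ^ 2) := ⟨_, rfl⟩
  have ht' : t * (d1 ^ 2 + d2 ^ 2) = (z1 - a1) * d1 + (z2 - a2) * d2 := by
    rw [ht, div_mul_cancel₀ _ hD.ne']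
  have e1 : z1 = a1 + t * d1 := by
    have h1 : (z1 - a1 - t * d1) * (d1 ^ 2 + d2 ^ 2) = 0 := by
      linear_combination (-d1) * ht' - d2 * h
    have h2 := (mul_eq_zero.mp h1).resolve_right hD.ne'
    linarith
  have e2 : z2 = a2 + t * d2 := by
    have h1 : (z2 - a2 - t * d2) * (d1 ^ 2 + d2 ^ 2) = 0 := by
      linear_combination (-d2) * ht' + d1 * h
    have h2 := (mul_eq_zero.mp h1).resolve_right hD.ne'
    linarith
  have h3 : t * (t - 1) * (d1 ^ 2 + d2 ^ 2) = 0 := by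
    rw [e1, e2] at hz
    linear_combination hz - ha - t * (hb - ha)
  rcases mul_eq_zero.mp ((mul_eq_zero.mp h3).resolve_right hD.ne') with h4 | h4
  · left
    rw [e1, e2, h4]
    exact ⟨by ring, by ring⟩
  · right
    have h5 : t = 1 := by linarith
    rw [e1, e2, h5]
    exact ⟨by ring, by ring⟩

/-- Two points divide the circle into two closed arcs. -/
theorem arcs (α β : Circle) (h : α ≠ β) : ∃ K L : Set Circle, IsClosed K ∧ IsClosed L ∧ K ∪ L = univ ∧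
    K ∩ L = {α, β} ∧ K ≠ univ ∧ L ≠ univ := by
  obtain ⟨a1, ha1⟩ : ∃ a1, a1 = (α : ℂ).re := ⟨_, rfl⟩
  obtain ⟨a2, ha2⟩ : ∃ a2, a2 = (α : ℂ).im := ⟨_, rfl⟩
  obtain ⟨d1, hd1⟩ : ∃ d1, d1 = (β : ℂ).re - a1 := ⟨_, rfl⟩
  obtain ⟨d2, hd2⟩ : ∃ d2, d2 = (β : ℂ).im - a2 := ⟨_, rfl⟩
  have hb1 : (β : ℂ).re = a1 + d1 := by rw [hd1]; ring
  have hb2 : (β : ℂ).im = a2 + d2 := by rw [hd2]; ring
  have ha : a1 ^ 2 + a2 ^ 2 = 1 := by
    rw [ha1, ha2]
    exact Arcs_sq α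
  have hb : (a1 + d1) ^ 2 + (a2 + d2) ^ 2 = 1 := by
    rw [← hb1, ← hb2]
    exact Arcs_sq β
  have hD : 0 < d1 ^ 2 + d2 ^ 2 := by
    by_contra hc
    apply h
    have h1 : d1 = 0 := by nlinarith [sq_nonneg d1, sq_nonneg d2]
    have h2 : d2 = 0 := by nlinarith [sq_nonneg d1, sq_nonneg d2]
    apply Circle.ext
    apply Complex.ext
    · rw [hb1, h1, add_zero, ha1]
    · rw [hb2, h2, add_zero, ha2]
  obtain ⟨m, hm⟩ : ∃ m : Circle → ℝ,
    m = fun z : Circle => ((z : ℂ).im - a2) * d1 - ((z : ℂ).re - a1) * d2 := ⟨_, rfl⟩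
  have hmc : Continuous m := by
    rw [hm]
    have h1 : Continuous fun z : Circle => (z : ℂ).re := Complex.continuous_re.comp continuous_subtype_val
    have h2 : Continuous fun z : Circle => (z : ℂ).im := Complex.continuous_im.comp continuous_subtype_val
    exact ((h2.sub continuous_const).mul continuous_const).sub
      ((h1.sub continuous_const).mul continuous_const)
  -- the two points
  obtain ⟨r, hr⟩ : ∃ r, r = Real.sqrt (d1 ^ 2 + d2 ^ 2) := ⟨_, rfl⟩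
  have hr0 : 0 < r := by
    rw [hr]
    exact Real.sqrt_pos.2 hD
  have hr2 : r ^ 2 = d1 ^ 2 + d2 ^ 2 := by
    rw [hr]
    exact Real.sq_sqrt hD.le
  have hw : (-d2 / r) ^ 2 + (d1 / r) ^ 2 = 1 := by
    rw [div_pow, div_pow, ← add_div, hr2, neg_sq, add_comm (d2 ^ 2)]
    exact div_self hD.ne'
  have hw' : (d2 / r) ^ 2 + (-d1 / r) ^ 2 = 1 := by
    rw [div_pow, div_pow, ← add_div, hr2, neg_sq, add_comm (d2 ^ 2)]
    exact div_self hD.ne'
  have hc2 : (a1 * d2 - a2 * d1) ^ 2 < r ^ 2 := by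
    have h1 : 2 * (a1 * d1 + a2 * d2) + (d1 ^ 2 + d2 ^ 2) = 0 := by nlinarith
    have h2 : (a1 * d2 - a2 * d1) ^ 2 + (a1 * d1 + a2 * d2) ^ 2 = d1 ^ 2 + d2 ^ 2 := by
      have : (a1 * d2 - a2 * d1) ^ 2 + (a1 * d1 + a2 * d2) ^ 2 =
          (a1 ^ 2 + a2 ^ 2) * (d1 ^ 2 + d2 ^ 2) := by ring
      rw [this, ha, one_mul]
    have h3 : 0 < (a1 * d1 + a2 * d2) ^ 2 := by
      have : a1 * d1 + a2 * d2 < 0 := by linarith
      nlinarith
    rw [hr2]
    linarith
  have hc := abs_lt_of_sq_lt_sq' hc2 hr0.le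
  obtain ⟨w, hw1, hw2⟩ := Arcs_mk _ _ hw
  obtain ⟨w', hw1', hw2'⟩ := Arcs_mk _ _ hw'
  have hrr : d1 / r * d1 + d2 / r * d2 = r := by
    have : d1 / r * d1 + d2 / r * d2 = (d1 ^ 2 + d2 ^ 2) / r := by ring
    rw [this, ← hr2, sq, mul_div_assoc, div_self hr0.ne', mul_one]
  have hmw : 0 < m w := by
    have : m w = r + (a1 * d2 - a2 * d1) := by
      rw [hm]
      show ((w : ℂ).im - a2) * d1 - ((w : ℂ).re - a1) * d2 = _
      rw [hw1, hw2]
      linear_combination hrr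
    rw [this]
    linarith [hc.1]
  have hmw' : m w' < 0 := by
    have : m w' = -r + (a1 * d2 - a2 * d1) := by
      rw [hm]
      show ((w' : ℂ).im - a2) * d1 - ((w' : ℂ).re - a1) * d2 = _
      rw [hw1', hw2']
      linear_combination -hrr
    rw [this]
    linarith [hc.2]
  refine ⟨{z | 0 ≤ m z}, {z | m z ≤ 0}, isClosed_le continuous_const hmc,
    isClosed_le hmc continuous_const, ?_, ?_, ?_, ?_⟩
  · ext z
    simp only [mem_union, mem_ofPred_eq, mem_univ, iff_true]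
    exact le_total 0 (m z)
  · ext z
    simp only [mem_inter_iff, mem_ofPred_eq, mem_insert_iff, mem_singleton_iff]
    constructor
    · rintro ⟨h1, h2⟩
      have h3 : m z = 0 := le_antisymm h2 h1
      rw [hm] at h3
      rcases Arcs_line ha hb (Arcs_sq z) hD h3 with ⟨h4, h5⟩ | ⟨h4, h5⟩
      · left
        apply Circle.ext
        apply Complex.ext
        · rw [h4, ha1]
        · rw [h5, ha2]
      · right
        apply Circle.ext
        apply Complex.ext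
        · rw [h4, hb1]
        · rw [h5, hb2]
    · rintro (rfl | rfl)
      · have : m z = 0 := by
          rw [hm]
          show ((z : ℂ).im - a2) * d1 - ((z : ℂ).re - a1) * d2 = 0
          rw [← ha1, ← ha2]
          ring
        rw [this]
        exact ⟨le_rfl, le_rfl⟩
      · have : m z = 0 := by
          rw [hm]
          show ((z : ℂ).im - a2) * d1 - ((z : ℂ).re - a1) * d2 = 0
          rw [hb1, hb2]
          ring
        rw [this]
        exact ⟨le_rfl, le_rfl⟩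
  · intro h1
    have h2 : w' ∈ {z | 0 ≤ m z} := by
      rw [h1]
      exact mem_univ _
    exact absurd (show 0 ≤ m w' from h2) (not_le.2 hmw')
  · intro h1
    have h2 : w ∈ {z | m z ≤ 0} := by
      rw [h1]
      exact mem_univ _
    exact absurd (show m w ≤ 0 from h2) (not_le.2 hmw)

end Pool.Agent.H.MP_4bdd60_an.UN
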