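import Mathlib

/-!
# MP_4bdd60_an, unions: openness at exceptional points

PROOF of `open_exc`. Let `p ∈ P`. `F ⁻¹' {F p}` is countable: its points off `Z` are isolated in it (`hloc`), `Z` is countable. So there is
`0 < r` with `closedBall p r ⊆ interior N`, `closedBall p r ∩ P = {p}` and `F ≠ F p` on `sphere p r` (only countably many radii are bad). `d` =
the distance of `F p` to the compact set `F '' sphere p r`, `d > 0` (if the sphere were empty: it is not). The set
`A = F '' (ball p r \ {p})` is open (`hopen`), `A ∩ (ball (F p) d \ {F p}) = F '' closedBall p r ∩ (ball (F p) d \ {F p})` is closed in the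
punctured ball, it is not empty (points near `p` off the countable fibre have values near `F p`), and the punctured ball is
connected; so `F '' N ⊇ ball (F p) d`.
-/

set_option autoImplicit false

open Set Filter Topology Metric

namespace Pool.Agent.H.MP_4bdd60_an.UN

private theorem Op_punctured (w : ℂ) (d : ℝ) : IsPreconnected (ball w d \ {w}) := by
  have h : ball w d \ {w} = (fun q : ℝ × ℝ => circleMap w q.1 q.2) '' (Ioo 0 d ×ˢ univ) := by
    ext y
    constructor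
    · rintro ⟨h1, h2⟩
      have h3 : y - w ≠ 0 := sub_ne_zero.2 h2
      rw [mem_ball, dist_eq_norm] at h1
      refine ⟨(‖y - w‖, Complex.arg (y - w)), ⟨⟨norm_pos_iff.2 h3, h1⟩, mem_univ _⟩, ?_⟩
      show circleMap w ‖y - w‖ (Complex.arg (y - w)) = y
      rw [circleMap, Complex.norm_mul_exp_arg_mul_I, add_sub_cancel]
    · rintro ⟨⟨ρ, θ⟩, ⟨⟨h1, h2⟩, -⟩, rfl⟩
      have h3 : dist (circleMap w ρ θ) w = ρ := by
        rw [Complex.dist_eq, circleMap_sub_center, norm_circleMap_zero, abs_of_pos h1]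
      refine ⟨?_, fun h4 => ?_⟩
      · rw [mem_ball]
        show dist (circleMap w ρ θ) w < d
        rw [h3]
        exact h2
      · have h5 : circleMap w ρ θ = w := h4
        rw [h5, dist_self] at h3
        exact h1.ne h3
  rw [h]
  refine (isPreconnected_Ioo.prod isPreconnected_univ).image _ (Continuous.continuousOn ?_)
  unfold circleMap
  fun_prop

private theorem Op_fibre {F : ℂ → ℂ} {Z : Set ℂ} (hZ : Z.Countable)
    (hloc : ∀ z, z ∉ Z → ∃ N ∈ 𝓝 z, InjOn F N) (w : ℂ) : (F ⁻¹' {w}).Countable := by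
  classical
  choose! N hN hinj using hloc
  obtain ⟨t, ht, htc, hcov⟩ := TopologicalSpace.countable_cover_nhdsWithin
    (f := N) (s := F ⁻¹' {w} \ Z) (fun x hx => mem_nhdsWithin_of_mem_nhds (hN x hx.2))
  refine (hZ.union htc).mono fun z hz => ?_
  by_cases hzZ : z ∈ Z
  · exact Or.inl hzZ
  · right
    obtain ⟨x, hx, hzx⟩ := mem_iUnion₂.1 (hcov ⟨hz, hzZ⟩)
    have hxZ := (ht hx).2
    have h1 : F x = w := (ht hx).1
    have h2 : F z = w := hz
    have h3 : z = x := hinj x hxZ hzx (mem_of_mem_nhds (hN x hxZ)) (h2.trans h1.symm)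
    rw [h3]
    exact hx

theorem open_exc {F : ℂ → ℂ} (hF : Continuous F) {P Z : Set ℂ} (hP : P.Finite) (hZ : Z.Countable)
    (hloc : ∀ z, z ∉ Z → ∃ N ∈ 𝓝 z, InjOn F N) (hopen : ∀ z, z ∉ P → ∀ N ∈ 𝓝 z, F '' N ∈ 𝓝 (F z)) :
    ∀ z, ∀ N ∈ 𝓝 z, F '' N ∈ 𝓝 (F z) := by
  intro p N hN
  have hS : (F ⁻¹' {F p}).Countable := Op_fibre hZ hloc (F p)
  -- the radius
  obtain ⟨ε₁, hε₁, h1⟩ := Metric.mem_nhds_iff.1 hN
  have hPc : (P \ {p})ᶜ ∈ 𝓝 p :=
    (hP.subset sdiff_subset).isClosed.isOpen_compl.mem_nhds fun h => h.2 rfl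
  obtain ⟨ε₂, hε₂, h2⟩ := Metric.mem_nhds_iff.1 hPc
  obtain ⟨r, hr1, hr2⟩ := ((hS.image fun z => dist z p).dense_compl ℝ).exists_between
    (lt_min hε₁ hε₂)
  have hr0 : 0 < r := hr2.1
  have hcb1 : closedBall p r ⊆ N := fun z hz =>
    h1 (mem_ball.2 ((mem_closedBall.1 hz).trans_lt (hr2.2.trans_le (min_le_left _ _))))
  have hcb2 : ∀ z ∈ closedBall p r, z ≠ p → z ∉ P := fun z hz hzp hzP =>
    h2 (mem_ball.2 ((mem_closedBall.1 hz).trans_lt (hr2.2.trans_le (min_le_right _ _))))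
      ⟨hzP, hzp⟩
  have hsp : ∀ z ∈ sphere p r, F z ≠ F p := by
    intro z hz h
    exact hr1 ⟨z, h, mem_sphere.1 hz⟩
  -- the distance
  have hcpt : IsCompact (F '' sphere p r) := (isCompact_sphere p r).image hF
  have hdn : (F '' sphere p r)ᶜ ∈ 𝓝 (F p) := by
    refine hcpt.isClosed.isOpen_compl.mem_nhds ?_
    rintro ⟨z, hz, h⟩
    exact hsp z hz h
  obtain ⟨d, hd0, hd⟩ := Metric.mem_nhds_iff.1 hdn
  obtain ⟨A, hA⟩ : ∃ A, A = F '' (ball p r \ {p}) := ⟨_, rfl⟩
  obtain ⟨B, hB⟩ : ∃ B, B = F '' closedBall p r := ⟨_, rfl⟩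
  have hAo : IsOpen A := by
    rw [isOpen_iff_mem_nhds, hA]
    rintro _ ⟨z, hz, rfl⟩
    refine hopen z (hcb2 z (ball_subset_closedBall hz.1) hz.2) _ ?_
    exact (isOpen_ball.sdiff isClosed_singleton).mem_nhds hz
  have hBc : IsClosed B := by
    rw [hB]
    exact ((isCompact_closedBall p r).image hF).isClosed
  have hAB : A ⊆ B := by
    rw [hA, hB]
    exact image_mono (sdiff_subset.trans ball_subset_closedBall)
  have hcov : ball (F p) d \ {F p} ⊆ A ∪ Bᶜ := by
    rintro y ⟨hy1, hy2⟩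
    by_cases hyB : y ∈ B
    · left
      rw [hB] at hyB
      obtain ⟨z, hz, rfl⟩ := hyB
      rw [hA]
      refine ⟨z, ⟨?_, fun h => hy2 ?_⟩, rfl⟩
      · rw [mem_ball]
        refine lt_of_le_of_ne (mem_closedBall.1 hz) fun h => ?_
        exact hd hy1 ⟨z, mem_sphere.2 h, rfl⟩
      · have h' : z = p := h
        rw [h']
        rfl
    · exact Or.inr hyB
  have hne : ((ball (F p) d \ {F p}) ∩ A).Nonempty := by
    have hO : IsOpen (F ⁻¹' ball (F p) d ∩ ball p r) :=
      (isOpen_ball.preimage hF).inter isOpen_ball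
    obtain ⟨z, hz1, hz2⟩ := (hS.dense_compl ℝ).exists_mem_open hO
      ⟨p, mem_ball_self hd0, mem_ball_self hr0⟩
    refine ⟨F z, ⟨hz2.1, hz1⟩, ?_⟩
    rw [hA]
    refine ⟨z, ⟨hz2.2, fun h => hz1 ?_⟩, rfl⟩
    have h' : z = p := h
    rw [h']
    rfl
  have hfin : ball (F p) d \ {F p} ⊆ A :=
    (Op_punctured (F p) d).subset_left_of_subset_union hAo hBc.isOpen_compl
      (disjoint_compl_right.mono_left hAB) hcov hne
  refine Filter.mem_of_superset (ball_mem_nhds (F p) hd0) fun y hy => ?_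
  by_cases hyp : y = F p
  · rw [hyp]
    exact mem_image_of_mem F (mem_of_mem_nhds hN)
  · have h3 := hAB (hfin ⟨hy, hyp⟩)
    rw [hB] at h3
    exact image_mono hcb1 h3

end Pool.Agent.H.MP_4bdd60_an.UN
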