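import Pool.Agent.H.MP_4bdd60_an.UN.Rect

/-!
# MP_4bdd60_an, unions: functions given near every point up to constants

PROOF of `glob`. For a natural number `N` let `Q N = Icc (-N) N ×ℂ Icc (-N) N` and choose `F_N` for `Pm S (Q N)` (`rect_pm`). For
`M ≤ N` the difference of `F_N` and `F_M` is constant near every point of `Q M` relative to `Q M`, and `Q M` is preconnected
(convex), so it is constant on `Q M`. Put `F z = F_N z - F_N 0` with `N = ⌈‖z‖⌉₊ + 1`. Then `F = F_N - F_N 0` on all of `Q N` for every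
`N` (compare with the values at `0`), and `Q N` is a neighbourhood of `z` when `‖z‖ < N`.
-/

set_option autoImplicit false

open Set Filter Topology Metric

namespace Pool.Agent.H.MP_4bdd60_an.UN

private def Glue_Q (N : ℕ) : Set ℂ := Icc (-(N : ℝ)) N ×ℂ Icc (-(N : ℝ)) N

private theorem Glue_conn (N : ℕ) : IsPreconnected (Glue_Q N) :=
  (((convex_Icc (-(N : ℝ)) N).linear_preimage Complex.reLm).inter
    ((convex_Icc (-(N : ℝ)) N).linear_preimage Complex.imLm)).isPreconnected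

private theorem Glue_mono {M N : ℕ} (h : M ≤ N) : Glue_Q M ⊆ Glue_Q N := by
  intro z hz
  have h1 : (M : ℝ) ≤ N := by exact_mod_cast h
  simp only [Glue_Q, Complex.mem_reProdIm, Set.mem_Icc] at hz ⊢
  obtain ⟨⟨a1, a2⟩, a3, a4⟩ := hz
  exact ⟨⟨by linarith, by linarith⟩, by linarith, by linarith⟩

private theorem Glue_zero (N : ℕ) : (0 : ℂ) ∈ Glue_Q N := by
  have h1 : (0 : ℝ) ≤ N := Nat.cast_nonneg N
  simp only [Glue_Q, Complex.mem_reProdIm, Set.mem_Icc, Complex.zero_re, Complex.zero_im]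
  exact ⟨⟨by linarith, h1⟩, by linarith, h1⟩

private theorem Glue_ball (z w : ℂ) (h : w ∈ ball z 1) : w ∈ Glue_Q (⌈‖z‖⌉₊ + 1) := by
  rw [Metric.mem_ball, Complex.dist_eq] at h
  have h1 : ‖z‖ ≤ ⌈‖z‖⌉₊ := Nat.le_ceil _
  have h2 : ‖w‖ ≤ ‖z‖ + 1 := by
    have h3 : w = z + (w - z) := by ring
    have h4 := norm_add_le z (w - z)
    rw [← h3] at h4
    linarith
  have h5 := Complex.abs_re_le_norm w
  have h6 := Complex.abs_im_le_norm w
  have h7 : (((⌈‖z‖⌉₊ + 1 : ℕ)) : ℝ) = (⌈‖z‖⌉₊ : ℝ) + 1 := by push_cast; ring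
  have h8 := abs_le.1 (h5.trans h2)
  have h9 := abs_le.1 (h6.trans h2)
  simp only [Glue_Q, Complex.mem_reProdIm, Set.mem_Icc]
  rw [h7]
  exact ⟨⟨by linarith [h8.1], by linarith [h8.2]⟩, by linarith [h9.1], by linarith [h9.2]⟩

private theorem Glue_mem (z : ℂ) : z ∈ Glue_Q (⌈‖z‖⌉₊ + 1) :=
  Glue_ball z z (Metric.mem_ball_self one_pos)

private theorem Glue_nhds (z : ℂ) : Glue_Q (⌈‖z‖⌉₊ + 1) ∈ 𝓝 z :=
  Filter.mem_of_superset (Metric.ball_mem_nhds z one_pos) fun w hw => Glue_ball z w hw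

/-- A family of functions which agree near every point up to constants comes from one function. -/
theorem glob {S : ℂ → ℂ → ℂ}
    (hS : ∀ z, ∀ᶠ z' in 𝓝 z, ∃ c : ℂ, ∀ᶠ w in 𝓝 z', S z w = S z' w + c) :
    ∃ F : ℂ → ℂ, ∀ z, ∃ c : ℂ, ∀ᶠ w in 𝓝 z, F w = S z w + c := by
  have hex : ∀ N : ℕ, ∃ F : ℂ → ℂ, ∀ z ∈ Glue_Q N, ∃ c : ℂ, ∀ᶠ w in 𝓝[Glue_Q N] z,
      F w = S z w + c := fun N =>
    rect_pm hS (by have := Nat.cast_nonneg (α := ℝ) N; linarith)
      (by have := Nat.cast_nonneg (α := ℝ) N; linarith)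
  choose F hF using hex
  have hcomp : ∀ M N : ℕ, M ≤ N → ∀ w ∈ Glue_Q M, F N w - F N 0 = F M w - F M 0 := by
    intro M N hMN w hw
    have hsub : Glue_Q M ⊆ Glue_Q N := Glue_mono hMN
    have hpc : PreconnectedSpace (Glue_Q M : Set ℂ) :=
      isPreconnected_iff_preconnectedSpace.1 (Glue_conn M)
    have hlc : IsLocallyConstant (fun w : (Glue_Q M : Set ℂ) => F N w - F M w) := by
      rw [IsLocallyConstant.iff_eventually_eq]
      intro x
      rw [eventually_nhds_subtype_iff (Glue_Q M) x (fun w => F N w - F M w = F N x - F M x)]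
      obtain ⟨c1, hc1⟩ := hF N x (hsub x.2)
      obtain ⟨c2, hc2⟩ := hF M x x.2
      have e1 : F N x = S x x + c1 := hc1.self_of_nhdsWithin (hsub x.2)
      have e2 : F M x = S x x + c2 := hc2.self_of_nhdsWithin x.2
      filter_upwards [hc1.filter_mono (nhdsWithin_mono _ hsub), hc2] with w g1 g2
      rw [g1, g2, e1, e2]
      ring
    have h3 := hlc.apply_eq_of_preconnectedSpace ⟨w, hw⟩ ⟨0, Glue_zero M⟩
    have h4 : F N w - F M w = F N 0 - F M 0 := h3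
    linear_combination h4
  refine ⟨fun z => F (⌈‖z‖⌉₊ + 1) z - F (⌈‖z‖⌉₊ + 1) 0, fun z => ?_⟩
  have hall : ∀ (N : ℕ) (w : ℂ), w ∈ Glue_Q N →
      F (⌈‖w‖⌉₊ + 1) w - F (⌈‖w‖⌉₊ + 1) 0 = F N w - F N 0 := by
    intro N w hw
    have hm : w ∈ Glue_Q (⌈‖w‖⌉₊ + 1) := Glue_mem w
    rcases le_total (⌈‖w‖⌉₊ + 1) N with h | h
    · exact (hcomp _ _ h w hm).symm
    · exact hcomp _ _ h w hw
  obtain ⟨c, hc⟩ := hF (⌈‖z‖⌉₊ + 1) z (Glue_mem z)
  refine ⟨c - F (⌈‖z‖⌉₊ + 1) 0, ?_⟩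
  have hn := Glue_nhds z
  rw [nhdsWithin_eq_nhds.2 hn] at hc
  filter_upwards [hc, hn] with w g1 g2
  rw [hall _ w g2, g1]
  ring

end Pool.Agent.H.MP_4bdd60_an.UN
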