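import Mathlib

/-!
# MP_4bdd60_an, unions: interval induction

PROOF. The set of `x ∈ [a, b]` with `p a y` for all `y ∈ [a, x]` contains `a` (`hloc a`), is open to the right and closed
(`hloc`, `hadd`), so it is `[a, b]` (supremum, or `IsClosed.Icc_subset_of_forall_exists_gt`).
-/

set_option autoImplicit false

open Set Filter Topology Metric

namespace Pool.Agent.H.MP_4bdd60_an.UN

/-- Interval induction. -/
theorem interval_ind {p : ℝ → ℝ → Prop} (hadd : ∀ x y z : ℝ, x ≤ y → y ≤ z → p x y → p y z → p x z)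
    (hloc : ∀ x : ℝ, ∃ δ : ℝ, 0 < δ ∧ ∀ y z : ℝ, x - δ < y → y ≤ z → z < x + δ → p y z) {a b : ℝ} (hab : a ≤ b) :
    p a b := by
  set S : Set ℝ := {x | a ≤ x ∧ x ≤ b ∧ p a x} with hS
  have ha : a ∈ S := by
    obtain ⟨δ, h1, h2⟩ := hloc a
    exact ⟨le_rfl, hab, h2 a a (by linarith) le_rfl (by linarith)⟩
  have hb : BddAbove S := ⟨b, fun x hx => hx.2.1⟩
  obtain ⟨δ, h1, h2⟩ := hloc (sSup S)
  obtain ⟨x, hx, hxs⟩ := exists_lt_of_lt_csSup ⟨a, ha⟩ (show sSup S - δ < sSup S by linarith)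
  have hxc : x ≤ sSup S := le_csSup hb hx
  have hxz : x ≤ min b (sSup S + δ / 2) := le_min hx.2.1 (by linarith)
  have hz : min b (sSup S + δ / 2) ∈ S := by
    refine ⟨hx.1.trans hxz, min_le_left _ _, ?_⟩
    refine hadd a x _ hx.1 hxz hx.2.2 (h2 x _ hxs hxz ?_)
    exact lt_of_le_of_lt (min_le_right _ _) (by linarith)
  have h3 := le_csSup hb hz
  have h4 : min b (sSup S + δ / 2) = b := by
    rcases min_choice b (sSup S + δ / 2) with h | h
    · exact h
    · rw [h] at h3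
      linarith
  rw [h4] at hz
  exact hz.2.2

end Pool.Agent.H.MP_4bdd60_an.UN
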