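import Mathlib

/-!
# MP_4bdd60_an, unions: variation along a circle of a function of the angle

PROOF. As `circ_F` in CI/Circ.lean (copy its private lemmas): `h π - h (-π)` is the integral over `[-π, π]` of
`θ ↦ Kᶜ.indicator k (circleMap a r θ) * deriv (circleMap a r) θ` by the fundamental theorem of calculus off a countable set.
-/

set_option autoImplicit false

open Set Filter Topology Metric MeasureTheory
open scoped ENNReal Real

namespace Pool.Agent.H.MP_4bdd60_an.UN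

private noncomputable def Lift_kap (k : ℂ → ℂ) (K : Set ℂ) (a : ℂ) (r : ℝ) (θ : ℝ) : ℂ :=
  Kᶜ.indicator k (circleMap a r θ) * (circleMap 0 r θ * Complex.I)

private theorem Lift_meas {k : ℂ → ℂ} {K : Set ℂ} (a : ℂ) (r : ℝ) (hK : IsClosed K)
    (hk : ContinuousOn k Kᶜ) : Measurable (Lift_kap k K a r) := by
  classical
  have h1 : Measurable (Kᶜ.indicator k) := by
    rw [← Set.piecewise_eq_indicator]
    exact hk.measurable_piecewise continuousOn_const hK.isOpen_compl.measurableSet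
  unfold Lift_kap
  exact (h1.comp (continuous_circleMap a r).measurable).mul
    ((continuous_circleMap 0 r).measurable.mul_const _)

private theorem Lift_lint {k : ℂ → ℂ} {K : Set ℂ} {a : ℂ} {r ε : ℝ} (hr : 0 < r)
    (hi : ENNReal.ofReal r * ∫⁻ θ in Ioo (-π) π, ‖Kᶜ.indicator k (circleMap a r θ)‖ₑ ≤
        ENNReal.ofReal ε) :
    ∫⁻ θ in Ioc (-π) π, ‖Lift_kap k K a r θ‖ₑ ≤ ENNReal.ofReal ε := by
  refine le_trans (le_of_eq ?_) hi
  rw [← lintegral_const_mul' _ _ ENNReal.ofReal_ne_top, setLIntegral_congr Ioo_ae_eq_Ioc.symm]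
  refine lintegral_congr fun θ => ?_
  unfold Lift_kap
  rw [enorm_mul, mul_comm]
  congr 1
  rw [← ofReal_norm, norm_mul, Complex.norm_I, mul_one, norm_circleMap_zero, abs_of_pos hr]

private theorem Lift_int {k : ℂ → ℂ} {K : Set ℂ} {a : ℂ} {r ε : ℝ} (hr : 0 < r)
    (hK : IsClosed K) (hk : ContinuousOn k Kᶜ)
    (hi : ENNReal.ofReal r * ∫⁻ θ in Ioo (-π) π, ‖Kᶜ.indicator k (circleMap a r θ)‖ₑ ≤
        ENNReal.ofReal ε) :
    IntegrableOn (Lift_kap k K a r) (Ioc (-π) π) :=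
  ⟨(Lift_meas a r hK hk).aestronglyMeasurable,
    (Lift_lint hr hi).trans_lt ENNReal.ofReal_lt_top⟩

private theorem Lift_ii {k : ℂ → ℂ} {K : Set ℂ} {a : ℂ} {r ε : ℝ} (hr : 0 < r)
    (hK : IsClosed K) (hk : ContinuousOn k Kᶜ)
    (hi : ENNReal.ofReal r * ∫⁻ θ in Ioo (-π) π, ‖Kᶜ.indicator k (circleMap a r θ)‖ₑ ≤
        ENNReal.ofReal ε) {x y : ℝ} (hx : x ∈ Icc (-π) π) (hy : y ∈ Icc (-π) π) :
    IntervalIntegrable (Lift_kap k K a r) volume x y := by
  rw [intervalIntegrable_iff]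
  exact (Lift_int hr hK hk hi).mono_set
    (Ioc_subset_Ioc (le_min hx.1 hy.1) (max_le hx.2 hy.2))

private theorem Lift_bd {k : ℂ → ℂ} {K : Set ℂ} {a : ℂ} {r ε : ℝ} (hr : 0 < r) (hε : 0 ≤ ε)
    (hK : IsClosed K) (hk : ContinuousOn k Kᶜ)
    (hi : ENNReal.ofReal r * ∫⁻ θ in Ioo (-π) π, ‖Kᶜ.indicator k (circleMap a r θ)‖ₑ ≤
        ENNReal.ofReal ε) {x y : ℝ} (hx : x ∈ Icc (-π) π) (hy : y ∈ Icc (-π) π) :
    ‖∫ θ in x..y, Lift_kap k K a r θ‖ ≤ ε := by
  have h1 := (Lift_int hr hK hk hi)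
  calc ‖∫ θ in x..y, Lift_kap k K a r θ‖ ≤ ∫ θ in uIoc x y, ‖Lift_kap k K a r θ‖ :=
        intervalIntegral.norm_integral_le_integral_norm_uIoc
    _ ≤ ∫ θ in Ioc (-π) π, ‖Lift_kap k K a r θ‖ := by
        refine setIntegral_mono_set h1.norm (Eventually.of_forall fun θ => norm_nonneg _) ?_
        exact (Ioc_subset_Ioc (le_min hx.1 hy.1) (max_le hx.2 hy.2)).eventuallyLE
    _ = (∫⁻ θ in Ioc (-π) π, ‖Lift_kap k K a r θ‖ₑ).toReal :=
        integral_norm_eq_lintegral_enorm h1.aestronglyMeasurable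
    _ ≤ ε := ENNReal.toReal_le_of_le_ofReal hε (Lift_lint hr hi)

private theorem Lift_exc {Γ : Set ℂ} {a : ℂ} {r : ℝ} (hr : 0 < r)
    (hc : (Γ ∩ sphere a r).Countable) : (circleMap a r ⁻¹' Γ).Countable := by
  refine (hc.preimage_circleMap a hr.ne').mono ?_
  intro θ hθ
  exact ⟨hθ, circleMap_mem_sphere a hr.le θ⟩

theorem circ_lift {h : ℝ → ℂ} {k : ℂ → ℂ} {K Γ : Set ℂ} {a : ℂ} {r ε : ℝ} (hr : 0 < r) (hε : 0 ≤ ε)
    (hKΓ : K ⊆ Γ) (hK : IsClosed K) (hk : ContinuousOn k Kᶜ) (hc : (Γ ∩ sphere a r).Countable)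
    (hh : Continuous h)
    (hd : ∀ θ : ℝ, circleMap a r θ ∉ Γ →
      HasDerivAt h (k (circleMap a r θ) * deriv (circleMap a r) θ) θ)
    (hi : ENNReal.ofReal r * ∫⁻ θ in Ioo (-π) π, ‖Kᶜ.indicator k (circleMap a r θ)‖ₑ ≤
        ENNReal.ofReal ε) :
    ‖h π - h (-π)‖ ≤ ε := by
  have hpi : (-π : ℝ) ∈ Icc (-π) π := ⟨le_rfl, by linarith [Real.pi_pos]⟩
  have hpi2 : (π : ℝ) ∈ Icc (-π) π := ⟨by linarith [Real.pi_pos], le_rfl⟩
  have h1 := integral_eq_of_hasDerivAt_off_countable h (Lift_kap k K a r) (a := -π) (b := π)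
    (Lift_exc hr hc) hh.continuousOn (fun θ hθ => by
      have h2 := hd θ hθ.2
      have h3 : Lift_kap k K a r θ = k (circleMap a r θ) * deriv (circleMap a r) θ := by
        unfold Lift_kap
        rw [indicator_of_mem (show circleMap a r θ ∈ Kᶜ from fun h => hθ.2 (hKΓ h)),
          deriv_circleMap]
      rw [h3]
      exact h2) (Lift_ii hr hK hk hi hpi hpi2)
  rw [← h1]
  exact Lift_bd hr hε hK hk hi hpi hpi2

end Pool.Agent.H.MP_4bdd60_an.UN
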