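import Pool.Agent.H.MP_4bdd60_an.G2
import Pool.Agent.H.MP_4bdd60_an.F4a
import Pool.Agent.H.MP_4bdd60_an.CI.Area
import Pool.Agent.H.MP_4bdd60_an.CI.Circ
import Pool.Agent.H.MP_4bdd60_an.UN.Loc

/-!
# MP_4bdd60_an, unions: the limit at an isolated exceptional point
-/

set_option autoImplicit false

open Set Filter Topology Metric MeasureTheory
open scoped ENNReal Real

namespace Pool.Agent.H.MP_4bdd60_an.UN

open CI

variable {K L : Set ℂ} {f : ℂ ≃ₜ ℂ} {k1 k2 : ℂ → ℂ}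

/-- A primitive of the form is open. -/
theorem open_pr (hK : IsClosed K) (hL : IsClosed L) (hnK : ∀ z, z ∉ K → ¬ ∀ᶠ y in 𝓝 z, k1 y = 0)
    (hnL : ∀ z, z ∉ L → ¬ ∀ᶠ y in 𝓝 (f z), k2 y = 0) {F : ℂ → ℂ} {z : ℂ} (hz : z ∉ K ∩ L)
    (hF : ∀ᶠ w in 𝓝 z, IsPr K L f k1 k2 F w) : ∀ N ∈ 𝓝 z, F '' N ∈ 𝓝 (F z) := by
  intro N hN
  obtain ⟨O, hO, hOo, hzO⟩ := _root_.eventually_nhds_iff.1 hF
  by_cases hzK : z ∈ K
  · have hzL : z ∉ L := fun h => hz ⟨hzK, h⟩
    have hfU : IsOpen (f '' (O ∩ Lᶜ)) := f.isOpenMap _ (hOo.inter hL.isOpen_compl)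
    have key := open_at (F := fun w => F (f.symm w)) (k := k2) hfU
      (by rintro _ ⟨z', hz', rfl⟩; exact (hO z' hz'.1).2 hz'.2)
      (by rintro _ ⟨z', hz', rfl⟩; exact hnL z' hz'.2) (f z) ⟨z, ⟨hzO, hzL⟩, rfl⟩ (f '' N)
      (f.isOpenMap.image_mem_nhds hN)
    have e : (fun w => F (f.symm w)) '' (f '' N) = F '' N := by
      rw [image_image]; simp
    rw [e] at key
    simpa using key
  · exact open_at (hOo.inter hK.isOpen_compl) (fun z hz => (hO z hz.1).1 hz.2) (fun z hz => hnK z hz.2) z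
      ⟨hzO, hzK⟩ N hN

theorem lim_loc (hK : IsClosed K) (hL : IsClosed L) (hF : Form K L f k1 k2)
    (hnK : ∀ z, z ∉ K → ¬ ∀ᶠ y in 𝓝 z, k1 y = 0)
    (hnL : ∀ z, z ∉ L → ¬ ∀ᶠ y in 𝓝 (f z), k2 y = 0) {p : ℂ} {R : ℝ} (hR : 0 < R)
    (hiso : ∀ z ∈ ball p R, z ≠ p → z ∉ K ∩ L) (hg : Good (K ∪ L) p) {G : ℂ → ℂ}
    (hG : ∀ z ∈ ball p R, z ≠ p → IsPr K L f k1 k2 G z) : ∃ A : ℂ, Tendsto G (𝓝[≠] p) (𝓝 A) := by
  have hev : ∀ z ∈ ball p R, z ≠ p → ∀ᶠ w in 𝓝 z, IsPr K L f k1 k2 G w := by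
    intro z hz hzp
    filter_upwards [isOpen_ball.mem_nhds hz, isOpen_compl_singleton.mem_nhds hzp] with w h1 h2
    exact hG w h1 h2
  have hcG : ContinuousOn G (ball p R \ {p}) := fun z hz =>
    ((hG z hz.1 hz.2).continuousAt (hiso z hz.1 hz.2)).continuousWithinAt
  refine ext_at (U0 := ball p R) (ρ := fun s => p + (s : ℂ)) (δ := 1) isOpen_ball (mem_ball_self hR) hcG
    (fun z hz => open_pr hK hL hnK hnL (hiso z hz.1 hz.2) (hev z hz.1 hz.2)) ?_ ?_
  · exact (continuous_const.add Complex.continuous_ofReal).continuousOn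
  · intro ε hε U hU
    obtain ⟨η, hη, hηU⟩ := Metric.nhds_basis_closedBall.mem_iff.1 hU
    obtain ⟨r, hr, hrm, hrc, hri⟩ := good_circle (δ := min η (min R 1)) hK hF.hol1.continuousOn hF.fin hg hε
      (lt_min hη (lt_min hR one_pos))
    have hr1 : r < η := hrm.trans_le (min_le_left _ _)
    have hr2 : r < R := hrm.trans_le ((min_le_right _ _).trans (min_le_left _ _))
    have hr3 : r < 1 := hrm.trans_le ((min_le_right _ _).trans (min_le_right _ _))
    have hcl : closure (ball p r) = closedBall p r := closure_ball p hr.ne'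
    have hsph : closure (ball p r) \ ball p r = sphere p r := by
      rw [hcl]
      exact closedBall_sdiff_ball
    have hsa : ∀ z ∈ sphere p r, z ∈ ball p R ∧ z ≠ p := by
      intro z hz
      rw [mem_sphere] at hz
      refine ⟨by rw [mem_ball, hz]; exact hr2, fun e => ?_⟩
      rw [e, dist_self] at hz
      exact hr.ne hz
    have hnorm : ∀ s : ℝ, dist (p + (s : ℂ)) p = |s| := by
      intro s
      rw [dist_eq_norm, add_sub_cancel_left, Complex.norm_real, Real.norm_eq_abs]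
    have hcF : ContinuousOn G (sphere p r) := hcG.mono fun z hz => hsa z hz
    have hrs : p + (r : ℂ) ∈ sphere p r := by
      rw [mem_sphere, hnorm, abs_of_pos hr]
    refine ⟨ball p r, G (p + (r : ℂ)), r, isOpen_ball, mem_ball_self hr, ?_, ?_, hr, hr3, ?_, ?_, ?_⟩
    · rw [hcl]
      exact (closedBall_subset_closedBall hr1.le).trans hηU
    · intro z hz
      rw [hsph] at hz
      exact circ_F hr hε.le subset_union_left hK hF.hol1.continuousOn hrc hcF
        (fun z hz hzn => (hG z (hsa z hz).1 (hsa z hz).2).1 fun h => hzn (Or.inl h)) hri z hz _ hrs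
    · rw [hsph]
      exact hrs
    · intro s hs hsr
      rw [mem_ball, hnorm, abs_of_pos hs]
      exact hsr
    · intro s hs _
      rw [mem_ball, hnorm, abs_of_pos (hr.trans_le hs)]
      exact not_lt.2 hs

end Pool.Agent.H.MP_4bdd60_an.UN
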