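import Pool.Agent.H.MP_4bdd60_an.UN.Glue
import Pool.Agent.H.MP_4bdd60_an.UN.Loc
import Pool.Agent.H.MP_4bdd60_an.UN.Lift
import Pool.Agent.H.MP_4bdd60_an.UN.Psi
import Pool.Agent.H.MP_4bdd60_an.CI.Area

/-!
# MP_4bdd60_an, unions: a primitive on a punctured disc

PROOF of `punc`. `Ψ` from `exists_psi`. `S ζ = G_(Ψ ζ) ∘ Ψ`, `G_z` = the function of `loc_exists` at `z`; the hypothesis of `glob` holds by `loc_unique`. So there is `F~` on `ℂ`, near
every `ζ` equal to `G_(Ψ ζ) ∘ Ψ` up to a constant. The function `F~ (ζ + 2 π i) - F~ ζ` is constant near every point, so it is a constant `m`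
(`IsLocallyConstant`, `ℂ` preconnected). `circ_lift` for `h θ = F~ (s + i θ)` with `ρ s = r`, `r` from `good_circle` (`δ = R`, `Γ = K ∪ L`; off `Γ` the
function `G_z` has the derivative `k1`): `‖m‖ ≤ ε` for every `ε > 0`, so `m = 0` and `F~` is periodic: `F~ ζ` depends only on `Ψ ζ`. Put
`G z = F~ ζ` for any `ζ` with `Ψ ζ = z`; as `Ψ` is open, `G = G_z + const` near `z`, so `IsPr` holds (`IsPr.congr`, `IsPr.add_const`).
-/

set_option autoImplicit false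

open Set Filter Topology Metric MeasureTheory
open scoped ENNReal Real

namespace Pool.Agent.H.MP_4bdd60_an.UN

open CI

variable {K L : Set ℂ} {f : ℂ ≃ₜ ℂ} {k1 k2 : ℂ → ℂ}

theorem punc (hK : IsClosed K) (hL : IsClosed L) (hF : Form K L f k1 k2)
    (hf : DifferentiableOn ℂ f (K ∪ L)ᶜ) {p : ℂ} {R : ℝ} (hR : 0 < R)
    (hiso : ∀ z ∈ ball p R, z ≠ p → z ∉ K ∩ L) (hg : Good (K ∪ L) p) :
    ∃ G : ℂ → ℂ, ∀ z ∈ ball p R, z ≠ p → IsPr K L f k1 k2 G z := by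
  obtain ⟨Ψ, hΨc, hΨo, hΨr, hΨi, hΨp, hΨs⟩ := exists_psi (p := p) hR
  have hmem : ∀ ζ, Ψ ζ ∈ ball p R \ {p} := fun ζ => hΨr ▸ mem_range_self ζ
  have hout : ∀ ζ, Ψ ζ ∉ K ∩ L := fun ζ => hiso _ (hmem ζ).1 (hmem ζ).2
  have hex : ∀ ζ, ∃ G : ℂ → ℂ, ∀ᶠ w in 𝓝 (Ψ ζ), IsPr K L f k1 k2 G w :=
    fun ζ => loc_exists hK hL hF hf (hout ζ)
  choose G0 hG0 using hex
  obtain ⟨F, hFF⟩ := glob (S := fun ζ v => G0 ζ (Ψ v)) (by
    intro ζ
    have h1 : ∀ᶠ ζ' in 𝓝 ζ, ∀ᶠ w in 𝓝 (Ψ ζ'), IsPr K L f k1 k2 (G0 ζ) w :=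
      hΨc.continuousAt.eventually (eventually_eventually_nhds.2 (hG0 ζ))
    filter_upwards [h1] with ζ' h2
    obtain ⟨c, hc⟩ := loc_unique hK hL (hout ζ') h2 (hG0 ζ')
    exact ⟨c, hΨc.continuousAt.eventually hc⟩)
  have hFc : Continuous F := by
    rw [continuous_iff_continuousAt]
    intro ζ
    obtain ⟨c, hc⟩ := hFF ζ
    have h1 : ContinuousAt (G0 ζ) (Ψ ζ) := (hG0 ζ).self_of_nhds.continuousAt (hout ζ)
    have h2 : ContinuousAt (fun v => G0 ζ (Ψ v) + c) ζ :=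
      (ContinuousAt.comp (f := Ψ) (g := G0 ζ) h1 hΨc.continuousAt).add continuousAt_const
    exact h2.congr (hc.mono fun w hw => hw.symm)
  obtain ⟨T, hT⟩ : ∃ T : ℂ, T = 2 * π * Complex.I := ⟨_, rfl⟩
  rw [← hT] at hΨp
  have hloc : IsLocallyConstant (fun ζ => F (ζ + T) - F ζ) := by
    rw [IsLocallyConstant.iff_eventually_eq]
    intro ζ
    obtain ⟨c, hc⟩ := hFF ζ
    obtain ⟨c', hc'⟩ := hFF (ζ + T)
    have h0 : ∀ᶠ w in 𝓝 (Ψ ζ), IsPr K L f k1 k2 (G0 (ζ + T)) w := by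
      have := hG0 (ζ + T)
      rwa [hΨp ζ] at this
    obtain ⟨e, he⟩ := loc_unique hK hL (hout ζ) h0 (hG0 ζ)
    have h1 : ∀ᶠ w in 𝓝 ζ, G0 (ζ + T) (Ψ w) = G0 ζ (Ψ w) + e := hΨc.continuousAt.eventually he
    have h2 : ∀ᶠ w in 𝓝 ζ, F (w + T) = G0 (ζ + T) (Ψ (w + T)) + c' := by
      have h3 : ContinuousAt (fun w : ℂ => w + T) ζ := (continuous_id.add continuous_const).continuousAt
      exact h3.eventually hc'
    have h4 : ∀ᶠ w in 𝓝 ζ, F (w + T) - F w = e + c' - c := by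
      filter_upwards [h1, h2, hc] with w w1 w2 w3
      rw [w2, w3, hΨp w, w1]
      ring
    have h5 := h4.self_of_nhds
    filter_upwards [h4] with w hw
    rw [hw, h5]
  obtain ⟨m, hm⟩ : ∃ m : ℂ, ∀ ζ, F (ζ + T) = F ζ + m := by
    refine ⟨F (0 + T) - F 0, fun ζ => ?_⟩
    have := hloc.apply_eq_of_preconnectedSpace ζ 0
    rw [← this]
    ring
  have hsmall : ∀ ε : ℝ, 0 < ε → ‖m‖ ≤ ε := by
    intro ε hε
    obtain ⟨r, hr0, hrR, hcount, hint⟩ :=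
      good_circle hK hF.hol1.continuousOn hF.fin hg hε hR
    obtain ⟨s, hs⟩ := hΨs r hr0 hrR
    have hcl := circ_lift (h := fun θ : ℝ => F (s + θ * Complex.I)) (k := k1) (K := K)
      (Γ := K ∪ L) (a := p) hr0 hε.le subset_union_left hK hF.hol1.continuousOn hcount
      (hFc.comp (by fun_prop)) (by
        intro θ hθ
        obtain ⟨c, hc⟩ := hFF (s + θ * Complex.I)
        have h1 : HasDerivAt (G0 (s + θ * Complex.I)) (k1 (circleMap p r θ)) (circleMap p r θ) := by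
          have h2 := (hG0 (s + θ * Complex.I)).self_of_nhds.1 (by
            rw [hs θ]
            exact fun h => hθ (Or.inl h))
          rwa [hs θ] at h2
        have h3 : HasDerivAt (circleMap p r) (deriv (circleMap p r) θ) θ :=
          (hasDerivAt_circleMap p r θ).differentiableAt.hasDerivAt
        have h4 := (h1.comp θ h3).add_const c
        refine h4.congr_of_eventuallyEq ?_
        have h5 : ContinuousAt (fun θ' : ℝ => (s : ℂ) + θ' * Complex.I) θ := by fun_prop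
        filter_upwards [h5.eventually hc] with θ' h6
        rw [h6, hs θ']
        rfl) hint
    have h7 : F (s + (π : ℝ) * Complex.I) = F (s + ((-π : ℝ) : ℂ) * Complex.I) + m := by
      rw [← hm]
      congr 1
      rw [hT]
      push_cast
      ring
    have h8 : F (s + (π : ℝ) * Complex.I) - F (s + ((-π : ℝ) : ℂ) * Complex.I) = m := by
      rw [h7]
      ring
    have h9 : ‖F (s + (π : ℝ) * Complex.I) - F (s + ((-π : ℝ) : ℂ) * Complex.I)‖ ≤ ε := hcl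
    rwa [h8] at h9
  have hm0 : m = 0 := by
    by_contra hne
    have h1 : 0 < ‖m‖ := norm_pos_iff.2 hne
    have h2 := hsmall (‖m‖ / 2) (by linarith)
    linarith
  have hper : Function.Periodic F T := fun ζ => by rw [hm, hm0, add_zero]
  have hinj : ∀ ζ ζ' : ℂ, Ψ ζ = Ψ ζ' → F ζ = F ζ' := by
    intro ζ ζ' h
    obtain ⟨n, hn⟩ := hΨi ζ ζ' h
    rw [← hT] at hn
    rw [hn]
    exact hper.int_mul n ζ'
  have hG : ∀ ζ, F (Function.invFun Ψ (Ψ ζ)) = F ζ := fun ζ =>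
    hinj _ _ (Function.invFun_eq ⟨ζ, rfl⟩)
  refine ⟨fun z => F (Function.invFun Ψ z), ?_⟩
  intro z hz hzp
  have hz' : z ∈ range Ψ := by
    rw [hΨr]
    exact ⟨hz, hzp⟩
  obtain ⟨ζ, rfl⟩ := hz'
  obtain ⟨c, hc⟩ := hFF ζ
  have h1 : ∀ᶠ v in 𝓝 (Ψ ζ), F (Function.invFun Ψ v) = G0 ζ v + c := by
    refine (hΨo.nhds_le ζ) ?_
    show ∀ᶠ w in 𝓝 ζ, F (Function.invFun Ψ (Ψ w)) = G0 ζ (Ψ w) + c
    filter_upwards [hc] with w hw
    rw [hG w, hw]
  exact IsPr.congr ((hG0 ζ).self_of_nhds.add_const c) h1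

end Pool.Agent.H.MP_4bdd60_an.UN
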