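import Pool.Agent.H.MP_4bdd60_an.UN.Ind

/-!
# MP_4bdd60_an, unions: functions given near every point up to constants, rectangles

PROOF of `glue_pm`: the difference of the two functions is constant on `A ∩ B` (it is constant near every point of `A ∩ B`
relative to `A ∩ B`, both being continuous translates of `S z` there; `A ∩ B` is preconnected); subtract the constant and take the
function of `A` on `A`, of `B` off `A`; at a point of `A ∩ B` both constants are equal (values at the point), at a point of `A` not in `B`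
only `A` matters as `B` is closed.
PROOF of `rect_pm`: every `z` has a ball `U` with `Pm S A` for all `A ⊆ U` (`hS z`, `F = S z`). Interval induction twice: for fixed
`x0`, `∃ δ > 0` with `Pm S ([x1, x2] × [c, d])` for all `x1 ≤ x2` in `(x0 - δ, x0 + δ)`, by `interval_ind` on `[c, d]` (take the
smaller `δ` in `hadd`); then by `interval_ind` on `[a, b]`. The intersection of two adjacent rectangles is the common side,
`Icc x y ×ℂ {t}` or `{t} ×ℂ Icc x y`, preconnected (`IsPreconnected.reProdIm` or convexity).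
-/

set_option autoImplicit false

open Set Filter Topology Metric

namespace Pool.Agent.H.MP_4bdd60_an.UN

/-- On `A` there is a function which agrees near every point of `A` with `S z` up to a constant. -/
def Pm (S : ℂ → ℂ → ℂ) (A : Set ℂ) : Prop :=
  ∃ F : ℂ → ℂ, ∀ z ∈ A, ∃ c : ℂ, ∀ᶠ w in 𝓝[A] z, F w = S z w + c

theorem glue_pm {S : ℂ → ℂ → ℂ} {A B : Set ℂ} (hA : IsClosed A) (hB : IsClosed B) (hAB : IsPreconnected (A ∩ B))
    (h1 : Pm S A) (h2 : Pm S B) : Pm S (A ∪ B) := by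
  classical
  obtain ⟨F1, hF1⟩ := h1
  obtain ⟨F2, hF2⟩ := h2
  have hk : ∃ k : ℂ, ∀ w ∈ A ∩ B, F1 w = F2 w + k := by
    rcases (A ∩ B).eq_empty_or_nonempty with he | ⟨w0, hw0⟩
    · exact ⟨0, fun w hw => by rw [he] at hw; exact absurd hw (Set.notMem_empty w)⟩
    · have hpc : PreconnectedSpace (A ∩ B : Set ℂ) := isPreconnected_iff_preconnectedSpace.1 hAB
      have hlc : IsLocallyConstant (fun w : (A ∩ B : Set ℂ) => F1 w - F2 w) := by
        rw [IsLocallyConstant.iff_eventually_eq]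
        intro x
        rw [eventually_nhds_subtype_iff (A ∩ B) x (fun w => F1 w - F2 w = F1 x - F2 x)]
        obtain ⟨c1, hc1⟩ := hF1 x x.2.1
        obtain ⟨c2, hc2⟩ := hF2 x x.2.2
        have e1 : F1 x = S x x + c1 := hc1.self_of_nhdsWithin x.2.1
        have e2 : F2 x = S x x + c2 := hc2.self_of_nhdsWithin x.2.2
        filter_upwards [hc1.filter_mono (nhdsWithin_mono _ Set.inter_subset_left),
          hc2.filter_mono (nhdsWithin_mono _ Set.inter_subset_right)] with w g1 g2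
        rw [g1, g2, e1, e2]
        ring
      refine ⟨F1 w0 - F2 w0, fun w hw => ?_⟩
      have h3 := hlc.apply_eq_of_preconnectedSpace ⟨w, hw⟩ ⟨w0, hw0⟩
      have h4 : F1 w - F2 w = F1 w0 - F2 w0 := h3
      rw [← h4]
      ring
  obtain ⟨k, hk⟩ := hk
  refine ⟨fun w => if w ∈ A then F1 w else F2 w + k, fun z hz => ?_⟩
  have hFB : ∀ w ∈ B, (if w ∈ A then F1 w else F2 w + k) = F2 w + k := fun w hw => by
    by_cases hwA : w ∈ A
    · rw [if_pos hwA, hk w ⟨hwA, hw⟩]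
    · rw [if_neg hwA]
  by_cases hzA : z ∈ A
  · obtain ⟨c1, hc1⟩ := hF1 z hzA
    refine ⟨c1, ?_⟩
    rw [nhdsWithin_union, Filter.eventually_sup]
    constructor
    · filter_upwards [hc1, self_mem_nhdsWithin] with w g1 g2
      rw [if_pos g2, g1]
    · by_cases hzB : z ∈ B
      · obtain ⟨c2, hc2⟩ := hF2 z hzB
        have e1 : F1 z = S z z + c1 := hc1.self_of_nhdsWithin hzA
        have e2 : F2 z = S z z + c2 := hc2.self_of_nhdsWithin hzB
        have e3 := hk z ⟨hzA, hzB⟩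
        have e4 : c1 = c2 + k := by
          rw [e1, e2] at e3
          linear_combination e3
        filter_upwards [hc2, self_mem_nhdsWithin] with w g1 g2
        rw [hFB w g2, g1, e4]
        ring
      · filter_upwards [self_mem_nhdsWithin,
          mem_nhdsWithin_of_mem_nhds (hB.isOpen_compl.mem_nhds hzB)] with w g1 g2
        exact absurd g1 g2
  · have hzB : z ∈ B := hz.resolve_left hzA
    obtain ⟨c2, hc2⟩ := hF2 z hzB
    refine ⟨c2 + k, ?_⟩
    rw [nhdsWithin_union, Filter.eventually_sup]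
    constructor
    · filter_upwards [self_mem_nhdsWithin,
        mem_nhdsWithin_of_mem_nhds (hA.isOpen_compl.mem_nhds hzA)] with w g1 g2
      exact absurd g1 g2
    · filter_upwards [hc2, self_mem_nhdsWithin] with w g1 g2
      rw [hFB w g2, g1]
      ring

private theorem Rect_conv (a b c d : ℝ) : IsPreconnected (Icc a b ×ℂ Icc c d) :=
  (((convex_Icc a b).linear_preimage Complex.reLm).inter
    ((convex_Icc c d).linear_preimage Complex.imLm)).isPreconnected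

theorem rect_pm {S : ℂ → ℂ → ℂ}
    (hS : ∀ z, ∀ᶠ z' in 𝓝 z, ∃ c : ℂ, ∀ᶠ w in 𝓝 z', S z w = S z' w + c) {a b c d : ℝ} (hab : a ≤ b)
    (hcd : c ≤ d) : Pm S (Icc a b ×ℂ Icc c d) := by
  -- small sets
  have hsm : ∀ z : ℂ, ∃ r : ℝ, 0 < r ∧ ∀ A : Set ℂ, A ⊆ ball z r → Pm S A := by
    intro z
    obtain ⟨r, hr, hb⟩ := Metric.eventually_nhds_iff_ball.1 (hS z)
    refine ⟨r, hr, fun A hA => ⟨S z, fun z' hz' => ?_⟩⟩
    obtain ⟨e, he⟩ := hb z' (hA hz')
    exact ⟨e, he.filter_mono nhdsWithin_le_nhds⟩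
  have hcol : ∀ x0 : ℝ, ∃ δ : ℝ, 0 < δ ∧ ∀ x1 x2 : ℝ, x0 - δ < x1 → x1 ≤ x2 → x2 < x0 + δ →
      Pm S (Icc x1 x2 ×ℂ Icc c d) := by
    intro x0
    refine interval_ind (p := fun y1 y2 => ∃ δ : ℝ, 0 < δ ∧ ∀ x1 x2 : ℝ, x0 - δ < x1 → x1 ≤ x2 →
      x2 < x0 + δ → Pm S (Icc x1 x2 ×ℂ Icc y1 y2)) ?_ ?_ hcd
    · rintro y1 y2 y3 h12 h23 ⟨δ1, hδ1, g1⟩ ⟨δ2, hδ2, g2⟩
      refine ⟨min δ1 δ2, lt_min hδ1 hδ2, fun x1 x2 k1 k2 k3 => ?_⟩
      have hm1 := min_le_left δ1 δ2
      have hm2 := min_le_right δ1 δ2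
      have e1 : Icc x1 x2 ×ℂ Icc y1 y3 = (Icc x1 x2 ×ℂ Icc y1 y2) ∪ (Icc x1 x2 ×ℂ Icc y2 y3) := by
        ext z
        simp only [Set.mem_union, Complex.mem_reProdIm, Set.mem_Icc]
        constructor
        · rintro ⟨k4, k5, k6⟩
          rcases le_total z.im y2 with h | h
          · exact Or.inl ⟨k4, k5, h⟩
          · exact Or.inr ⟨k4, h, k6⟩
        · rintro (⟨k4, k5, k6⟩ | ⟨k4, k5, k6⟩)
          · exact ⟨k4, k5, k6.trans h23⟩
          · exact ⟨k4, h12.trans k5, k6⟩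
      have e2 : (Icc x1 x2 ×ℂ Icc y1 y2) ∩ (Icc x1 x2 ×ℂ Icc y2 y3) = Icc x1 x2 ×ℂ Icc y2 y2 := by
        ext z
        simp only [Set.mem_inter_iff, Complex.mem_reProdIm, Set.mem_Icc]
        constructor
        · rintro ⟨⟨k4, _, k6⟩, _, k7, _⟩
          exact ⟨k4, k7, k6⟩
        · rintro ⟨k4, k5, k6⟩
          exact ⟨⟨k4, h12.trans k5, k6⟩, k4, k5, k6.trans h23⟩
      rw [e1]
      refine glue_pm (isClosed_Icc.reProdIm isClosed_Icc) (isClosed_Icc.reProdIm isClosed_Icc) ?_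
        (g1 x1 x2 (by linarith) k2 (by linarith)) (g2 x1 x2 (by linarith) k2 (by linarith))
      rw [e2]
      exact Rect_conv _ _ _ _
    · intro y
      obtain ⟨r, hr, hb⟩ := hsm ⟨x0, y⟩
      refine ⟨r / 2, by positivity, fun y1 y2 k1 k2 k3 => ⟨r / 2, by positivity,
        fun x1 x2 k4 k5 k6 => hb _ fun z hz => ?_⟩⟩
      rw [Complex.mem_reProdIm, Set.mem_Icc, Set.mem_Icc] at hz
      rw [Metric.mem_ball, Complex.dist_eq]
      have h3 := Complex.norm_le_abs_re_add_abs_im (z - ⟨x0, y⟩)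
      rw [Complex.sub_re, Complex.sub_im] at h3
      have h4 : |z.re - x0| < r / 2 := by
        rw [abs_lt]
        exact ⟨by linarith [hz.1.1], by linarith [hz.1.2]⟩
      have h5 : |z.im - y| < r / 2 := by
        rw [abs_lt]
        exact ⟨by linarith [hz.2.1], by linarith [hz.2.2]⟩
      refine lt_of_le_of_lt h3 ?_
      change |z.re - x0| + |z.im - y| < r
      linarith
  refine interval_ind (p := fun x1 x2 => Pm S (Icc x1 x2 ×ℂ Icc c d)) ?_ hcol hab
  intro x1 x2 x3 h12 h23 g1 g2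
  have e1 : Icc x1 x3 ×ℂ Icc c d = (Icc x1 x2 ×ℂ Icc c d) ∪ (Icc x2 x3 ×ℂ Icc c d) := by
    ext z
    simp only [Set.mem_union, Complex.mem_reProdIm, Set.mem_Icc]
    constructor
    · rintro ⟨⟨k5, k6⟩, k4⟩
      rcases le_total z.re x2 with h | h
      · exact Or.inl ⟨⟨k5, h⟩, k4⟩
      · exact Or.inr ⟨⟨h, k6⟩, k4⟩
    · rintro (⟨⟨k5, k6⟩, k4⟩ | ⟨⟨k5, k6⟩, k4⟩)
      · exact ⟨⟨k5, k6.trans h23⟩, k4⟩
      · exact ⟨⟨h12.trans k5, k6⟩, k4⟩
  have e2 : (Icc x1 x2 ×ℂ Icc c d) ∩ (Icc x2 x3 ×ℂ Icc c d) = Icc x2 x2 ×ℂ Icc c d := by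
    ext z
    simp only [Set.mem_inter_iff, Complex.mem_reProdIm, Set.mem_Icc]
    constructor
    · rintro ⟨⟨⟨_, k6⟩, k4⟩, ⟨k7, _⟩, _⟩
      exact ⟨⟨k7, k6⟩, k4⟩
    · rintro ⟨⟨k5, k6⟩, k4⟩
      exact ⟨⟨⟨h12.trans k5, k6⟩, k4⟩, ⟨k5, k6.trans h23⟩, k4⟩
  rw [e1]
  refine glue_pm (isClosed_Icc.reProdIm isClosed_Icc) (isClosed_Icc.reProdIm isClosed_Icc) ?_ g1 g2
  rw [e2]
  exact Rect_conv _ _ _ _

end Pool.Agent.H.MP_4bdd60_an.UN
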